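import Pool.Agent.K4H92.ANDF.Semi

/-!
# The log-rank conjecture for AND-functions and for functions on semilattices

Let `S` be any finite commutative semigroup in which all elements are idempotent (`x * x = x`; in
other words a finite semilattice) and let `f : S → {0,1}` be arbitrary. Then the function
`F(x, y) = f(x * y)` has a deterministic protocol with at most `394 (log₂ r + 1)^7` bits, where `r` is
the real rank of the matrix of `F`.

* `S = F_2^n` with the coordinatewise product: all AND-functions `f(x ∧ y)`, without any dependence on
  the number `n` of variables. (Knop, Lovett, McGuire and Yuan have a bound with an additional factor
  `log n`.)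
* `S` a finite lattice with the meet: this is the meet problem of Lovász and Saks (there
  `f(w) = [w = 0]`) for an arbitrary `f`. For example `f(gcd(x, y))`, functions of the
  intersection of two subspaces or subgroups, of the common refinement of two partitions, of
  `(min(x_1, y_1), …, min(x_n, y_n))`.

Proof. Write `f` as a polynomial with `s = r` monomials (Möbius inversion), a function on the subsets of
a finite set `P` which is Boolean on a down-set. The new structure theorem: if `s ≥ 2` and
`K = 2 (log₂ s + 1)^2 + 1`, then there is a union `T` of at most `K` monomials for which the sets `w ∪ T`
(`w` a monomial) take less than `(1 - 1 / (8 K)) s` different values. For otherwise, in a random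
`K`-tuple of monomials every one of them is alone in its class modulo the union of the other ones.
Then the parts of the monomials which are not covered by the others are `K` disjoint blocks of variables,
each of which is relevant for `f` at a common base point; and Markov's inequality together with a random
restriction gives `s ≥ 2^(√(K / 2))`, a contradiction. Now let `X × Y` be any set of rows and
columns. Delete the rows and columns containing a union of `K` monomials which is contained in few
rows or in few columns; then the rows and columns which contain `T` are a rectangle of relative size
`s^(-O(K))`, and only `(1 - 1 / (8 K)) s` monomials are left. After `8 K log₂ s` steps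
we have a monochromatic rectangle of relative size `2^(-O(log^6 s))`, and the theorem of Nisan and
Wigderson gives the protocol.
-/

set_option autoImplicit false

namespace Pool.Agent.Results.MP_e5d384_lc.MeetFunctions

open Pool.Agent.H630R2.LR Pool.Agent.K4H92.ANDF

/-- **The log-rank conjecture for functions on semilattices.** Let `S` be a finite commutative
semigroup of idempotents and `f : S → {0,1}` arbitrary. Then `F(x, y) = f(x * y)` has a deterministic
two-party protocol with at most `394 (log₂ r + 1)^7` bits, where `r` is the real rank of the
communication matrix of `F`. (Protocols exactly as in the frozen statement S15531: `t` is the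
transcript so far, `owner t` says who speaks, exactly `c` bits are exchanged, and the answer is a
function of the transcript.) With `S = (Fin n → ZMod 2)` and the coordinatewise product this is the
log-rank conjecture for all AND-functions `f(x ∧ y)`, with no dependence on `n`. -/
theorem result (S : Type) [CommSemigroup S] [Fintype S] (hS : ∀ x : S, x * x = x) (f : S → Bool) :
    ∃ (c : ℕ) (owner : List Bool → Bool) (a b : List Bool → S → Bool)
      (out : List Bool → Bool),
      (∀ x y : S, out (Nat.iterate
        (fun t : List Bool => t ++ [if owner t then a t x else b t y]) c []) = f (x * y)) ∧
      (c : ℝ) ≤ 394 * (Real.logb 2
          ((Matrix.of (fun x y : S => if f (x * y) then (1 : ℝ) else 0)).rank : ℝ) + 1) ^ 7 := by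
  let _ : Min S := ⟨fun x y => x * y⟩
  let _ : SemilatticeInf S := SemilatticeInf.mk' (fun a b => mul_comm a b)
    (fun a b c => mul_assoc a b c) hS
  obtain ⟨c, ⟨owner, a, b, out, h⟩, hc⟩ := proto_meet f
  exact ⟨c, owner, a, b, out, h, hc⟩

end Pool.Agent.Results.MP_e5d384_lc.MeetFunctions
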