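import Pool.Agent.K4H92.ANDF.CompMain

/-!
# The log-rank conjecture for compositions: all inner functions except exclusive ors

Let `F(x, y) = g(f_1(x_1, y_1), …, f_k(x_k, y_k))` with an arbitrary outer function `g` and
arbitrary inner functions `f_i : X_i × Y_i → {0, 1}` on arbitrary finite sets. A function of the form
`a(x) + b(y)` mod 2 with Boolean `a` and `b` is called an *exclusive or* here. The theorem: if the
inner functions satisfy the log-rank conjecture, then `F` satisfies it up to two bits for every inner
function which is an exclusive or; the number `k` of the other inner functions and the sizes of their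
domains do not enter.

So if none of the inner functions is an exclusive or (they may be ANDs and ORs of one bit of each
player, arbitrary larger functions, and any mixture of these) then the log-rank conjecture is inherited by
all compositions. If all of them are exclusive ors, then `F(x, y) = g(a(x) + b(y))`, and this is the
open case of the XOR-functions; if exclusive ors are replaced by functions of only one player then `F`
is an arbitrary function. In this sense the exclusion is necessary.

Proof. (1) An inner function `f` which is not an exclusive or contains, up to a negation, the matrix of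
the AND of two bits. Hence the number of monomials of the real polynomial `g` is at most the rank
`r` of `F`. If `f` has moreover three different rows or three different columns then the matrix of the
differences of its rows or columns has rank at least 2; therefore for every monomial `T` of `g` the
product of these ranks over `i ∈ T` is at most `r` (as in the starting result BlockComposition). If not,
then `f(x, y) = a(x) ∧ b(y)`. (2) A protocol for `f_i` with `q_i` bits gives a factorization
`f_i(x, y) = ∑_z u_z(x) h_z(y)` with `2^(q_i)` terms in which all sums over
`{z : u_z = 1 on I}`, `I` a nonempty set of rows, are 0 or 1; for `a(x) ∧ b(y)` one term is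
enough. Multiplying out the polynomial `g` one gets such a factorization of `F`, with at most
`r 2^Q` terms, `Q` the maximum of the sums of the `q_i` over a monomial. (3) By the main inequality
of StableFactorizations `F` has a protocol with `3000 (log₂ r + Q + 1)^7` bits.
-/

set_option autoImplicit false

namespace Pool.Agent.Results.MP_e5d384_lc.NoXorCompositions

/-- `F` has a deterministic two-party protocol with exactly `c` bits. (Protocols exactly as in the
frozen statement S15531: `t` is the transcript so far, `owner t` says who speaks, and the answer is
a function of the transcript.) -/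
def HasProtocol {X Y : Type} (F : X → Y → Bool) (c : ℕ) : Prop :=
  ∃ (owner : List Bool → Bool) (a : List Bool → X → Bool)
      (b : List Bool → Y → Bool) (out : List Bool → Bool),
      ∀ x y, out (Nat.iterate
        (fun t : List Bool => t ++ [if owner t then a t x else b t y]) c []) = F x y

/-- `log₂` of the real rank of the communication matrix of `F` (`0` if the rank is `0`) -/
noncomputable def logRank {X Y : Type} [Fintype X] [Fintype Y] (F : X → Y → Bool) : ℝ :=
  Real.logb 2 ((Matrix.of (fun (x : X) (y : Y) => if F x y then (1 : ℝ) else 0)).rank : ℝ)

/-- `f(x, y) = a(x) + b(y)` mod 2 -/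
def IsXor {X Y : Type} (f : X → Y → Bool) : Prop :=
  ∃ (a : X → Bool) (b : Y → Bool), ∀ x y, f x y = xor (a x) (b y)

/-- the composition `F(x, y) = g(f_1(x_1, y_1), ..., f_k(x_k, y_k))` -/
def compose {k : ℕ} {X Y : Fin k → Type} (g : (Fin k → Bool) → Bool)
    (f : ∀ i, X i → Y i → Bool) : (∀ i, X i) → (∀ i, Y i) → Bool :=
  fun x y => g (fun i => f i (x i) (y i))

/-- **The log-rank conjecture for compositions.** Let `F = g(f_1, ..., f_k)` with an arbitrary outer
function `g : {0,1}^k → {0,1}` and arbitrary inner functions `f_i : X_i × Y_i → {0,1}` on arbitrary
finite sets. Suppose that every inner function which is not an exclusive or `a(x) + b(y)` has a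
protocol with at most `K (log₂ rank f_i + 1)^C` bits (`C = 0`: at most `K` bits). Then `F` has a
protocol with at most `2 t + 3000 (L + K 6^C L^(max(C,1)) + 1)^7` bits, where `L = log₂ rank F` and `t`
is the number of inner functions which are exclusive ors. -/
theorem result (K C k : ℕ) (X Y : Fin k → Type) [∀ i, Fintype (X i)] [∀ i, Fintype (Y i)]
    (f : ∀ i, X i → Y i → Bool) (g : (Fin k → Bool) → Bool)
    (hK : ∀ i, ¬ IsXor (f i) →
      ∃ c : ℕ, HasProtocol (f i) c ∧ (c : ℝ) ≤ K * (logRank (f i) + 1) ^ C) :
    ∃ c : ℕ, HasProtocol (compose g f) c ∧
      (c : ℝ) ≤ 2 * ({i | IsXor (f i)}.ncard : ℝ) + 3000 * (logRank (compose g f) +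
        K * 6 ^ C * logRank (compose g f) ^ (max C 1) + 1) ^ 7 := by
  obtain ⟨c, hc, hb⟩ := Pool.Agent.K4H92.ANDF.main_all f g K C hK
  refine ⟨c, hc, ?_⟩
  rw [← Nat.card_coe_set_eq]
  exact hb

end Pool.Agent.Results.MP_e5d384_lc.NoXorCompositions
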