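import Pool.Agent.K4H93.LRP.Final

/-!
# The log-rank conjecture for columns which are closed under a coordinatewise operation

The rows of a Boolean matrix `F` of rank `r` are real linear functionals of `r` Boolean functions
`B_1(y), …, B_r(y)` (`r` rows of `F` which form a basis of the row space). So the log-rank conjecture
is about families of real functionals which are Boolean on an arbitrary set `C` of 0-1-vectors, the set
of the columns `(B_1(y), …, B_r(y))`. We ask for which operations `φ` (in the sense of universal
algebra, as in the classification of Boolean constraint satisfaction problems by Schaefer) the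
conjecture holds when `C` is closed under `φ`. The operation acts coordinatewise, and it may be a
different one in every coordinate; it is idempotent in every coordinate (otherwise it could be a
constant or a negation).

1. If in no coordinate the operation is affine over the field with two elements, then there is a
   protocol with at most `10^7 (log₂ s + 1)^7` bits, `s` the number of the functions `B_i`.
   2. In particular the bound of the log-rank conjecture holds with `s = r`.
3. For one operation in all coordinates: for every idempotent Boolean operation which is not a
   projection, if `C` is closed under it, then the bound holds or `C` is an affine subspace over the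
   field with two elements (closed under `a + b + c`), which is the case of the functions `f(x + y)`.
4. The affine case is the only obstacle: if in no coordinate the operation is a projection, then `F` has
   a protocol with at most `10^7 (log₂ s + 1)^7 + d + 1` bits, where `d` is a bound for the case of
   affine subspaces (with `s` functions `B_i`).

Examples for 1: unions or intersections (`C` closed under intersections: the rows are arbitrary Boolean
functionals on an arbitrary family of sets which is closed under intersections; this contains
the problem clique against independent set and the functions `f(x ∧ y)`); majority (`C` a median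
algebra, for example the set of the vertices of a cube complex of nonpositive curvature, described
by its hyperplanes; trees, solution sets of 2-SAT-formulas).

Proof. Post's lemma for several coordinates: the given operation produces a ternary one which in
every coordinate is `a ∧ b ∧ c`, `a ∨ b ∨ c`, the majority, or `a + b + c` (only if the given operation is
affine there). Closure under such an operation makes the parts of the columns independent of each
other to such an extent that `F` can be computed from three functions of the pure types. The
conjunctions: `StableFactorizations` (helper92). The majority: after removing superfluous coordinates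
the coordinates which are relevant for a given row are pairwise non-crossing (one of the four
combinations of their values does not occur), because two of them which cross would give a square on
which the row takes three values. Then a rectangle contains a monochromatic rectangle of relative size
`s ^ (- O(log s))`: for every coordinate take the side which contains fewer coordinates; either
many rows and columns meet in such a side, and one continues there with half of the coordinates, or after
removing a few rows and columns no column is on such a side of a relevant coordinate.
-/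

set_option autoImplicit false

namespace Pool.Agent.Results.MP_e5d384_lc.PolymorphismClosed

open Finset

/-- `F` has a deterministic two-party protocol in which `c` bits are exchanged. (Protocols exactly as
in the frozen statement S15531: `t` is the transcript so far, `owner t` says who speaks, and the answer
is a function of the transcript.) -/
def HasProtocol {X Y : Type} (F : X → Y → Bool) (c : ℕ) : Prop :=
  ∃ (owner : List Bool → Bool) (a : List Bool → X → Bool) (b : List Bool → Y → Bool)
    (out : List Bool → Bool), ∀ x y,
      out (Nat.iterate (fun t : List Bool => t ++ [if owner t then a t x else b t y]) c []) = F x y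

/-- the real value of a bit -/
def val (b : Bool) : ℝ := if b then 1 else 0

/-- the real rank of the communication matrix -/
noncomputable def rk {X Y : Type} [Fintype X] [Fintype Y] (F : X → Y → Bool) : ℕ :=
  (Matrix.of fun (x : X) (y : Y) => val (F x y)).rank

/-- Every row of `F` is a real linear combination of the Boolean functions `B i` and the constant
function. -/
def Spanned {X Y : Type} {s : ℕ} (F : X → Y → Bool) (B : Fin s → Y → Bool) : Prop :=
  ∃ (c : X → ℝ) (A : X → Fin s → ℝ), ∀ x y, val (F x y) = c x + ∑ i, A x i * val (B i y)

/-- The set of the columns `(B_1(y), …, B_s(y))` is closed under the `k`-ary operation which acts in the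
coordinate `i` by `φ i`. -/
def ClosedUnder {Y : Type} {s k : ℕ} (B : Fin s → Y → Bool) (φ : Fin s → (Fin k → Bool) → Bool) :
    Prop :=
  ∀ v : Fin k → Y, ∃ y, ∀ i, B i y = φ i (fun j => B i (v j))

/-- The set of the columns is closed under `a + b + c` (addition modulo 2): if it is not empty it is an
affine subspace over the field with two elements. -/
def AffineColumns {Y : Type} {s : ℕ} (B : Fin s → Y → Bool) : Prop :=
  ∀ y₁ y₂ y₃ : Y, ∃ y, ∀ i, B i y = xor (B i y₁) (xor (B i y₂) (B i y₃))

/-- `f (a, …, a) = a` -/
def Idempotent {k : ℕ} (f : (Fin k → Bool) → Bool) : Prop := ∀ a, f (fun _ => a) = a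

/-- `f` is a projection -/
def IsProjection {k : ℕ} (f : (Fin k → Bool) → Bool) : Prop := ∃ j, ∀ v, f v = v j

/-- `f` is affine over the field with two elements -/
def IsAffine {k : ℕ} (f : (Fin k → Bool) → Bool) : Prop :=
  ∃ (c : ZMod 2) (a : Fin k → ZMod 2), ∀ v : Fin k → Bool,
    (if f v then (1 : ZMod 2) else 0) = c + ∑ j, a j * (if v j then 1 else 0)

/-- **The log-rank conjecture for columns closed under a coordinatewise operation.**
(1) Columns closed under an operation which is idempotent and not affine in every coordinate.
(2) The same with `rk F` rows of `F` in the place of the functions `B i`. (3) One operation in all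
coordinates which is idempotent and not a projection. (4) Operations which are idempotent and not a
projection in every coordinate: reduction to the affine case. -/
theorem result :
    (∀ (X Y : Type) [Fintype X] [Fintype Y] (F : X → Y → Bool) (s : ℕ) (B : Fin s → Y → Bool),
      Spanned F B → ∀ (k : ℕ) (φ : Fin s → (Fin k → Bool) → Bool), ClosedUnder B φ →
      (∀ i, Idempotent (φ i) ∧ ¬ IsAffine (φ i)) →
        ∃ c, HasProtocol F c ∧ (c : ℝ) ≤ 10 ^ 7 * (Real.logb 2 (s : ℝ) + 1) ^ 7) ∧
    (∀ (X Y : Type) [Fintype X] [Fintype Y] (F : X → Y → Bool) (R : Fin (rk F) → X),
      Spanned F (fun i => F (R i)) → ∀ (k : ℕ) (φ : Fin (rk F) → (Fin k → Bool) → Bool),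
      ClosedUnder (fun i => F (R i)) φ → (∀ i, Idempotent (φ i) ∧ ¬ IsAffine (φ i)) →
        ∃ c, HasProtocol F c ∧ (c : ℝ) ≤ 10 ^ 7 * (Real.logb 2 (rk F : ℝ) + 1) ^ 7) ∧
    (∀ (X Y : Type) [Fintype X] [Fintype Y] (F : X → Y → Bool) (s : ℕ) (B : Fin s → Y → Bool),
      Spanned F B → ∀ (k : ℕ) (f : (Fin k → Bool) → Bool), Idempotent f → ¬ IsProjection f →
      ClosedUnder B (fun _ => f) →
        (∃ c, HasProtocol F c ∧ (c : ℝ) ≤ 10 ^ 7 * (Real.logb 2 (s : ℝ) + 1) ^ 7) ∨
        AffineColumns B) ∧
    (∀ (X Y : Type) [Fintype X] [Fintype Y] (s d : ℕ),
      (∀ (F : X → Y → Bool) (B : Fin s → Y → Bool), Spanned F B → AffineColumns B →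
        HasProtocol F d) →
      ∀ (F : X → Y → Bool) (B : Fin s → Y → Bool), Spanned F B →
      ∀ (k : ℕ) (φ : Fin s → (Fin k → Bool) → Bool), ClosedUnder B φ →
      (∀ i, Idempotent (φ i) ∧ ¬ IsProjection (φ i)) →
        ∃ c, HasProtocol F c ∧ (c : ℝ) ≤ 10 ^ 7 * (Real.logb 2 (s : ℝ) + 1) ^ 7 + d + 1) := by
  have h107 : (10000000 : ℝ) = 10 ^ 7 := by norm_num
  have p1 : ∀ (X Y : Type) [Fintype X] [Fintype Y] (F : X → Y → Bool) (s : ℕ)
      (B : Fin s → Y → Bool),
      Spanned F B → ∀ (k : ℕ) (φ : Fin s → (Fin k → Bool) → Bool), ClosedUnder B φ →
      (∀ i, Idempotent (φ i) ∧ ¬ IsAffine (φ i)) →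
        ∃ c, HasProtocol F c ∧ (c : ℝ) ≤ 10 ^ 7 * (Real.logb 2 (s : ℝ) + 1) ^ 7 := by
    intro X Y _ _ F s B hF k φ hcl hφ
    obtain ⟨c, A, hrep⟩ := hF
    obtain ⟨d, hd, hb⟩ := Pool.Agent.K4H93.LRP.final1 F (fun y i => B i y) c A hrep φ hcl
      (fun i => (hφ i).1 true) (fun i => (hφ i).1 false) (fun i => (hφ i).2)
    refine ⟨d, hd, ?_⟩
    rw [Fintype.card_fin, h107] at hb
    exact hb
  refine ⟨p1, fun X Y _ _ F R hF k φ hcl hφ => p1 X Y F (rk F) _ hF k φ hcl hφ,
    fun X Y _ _ F s B hF k f hf hnp hcl => ?_, fun X Y _ _ s d haff F B hF k φ hcl hφ => ?_⟩
  · by_cases ha : IsAffine f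
    · right
      exact fun y₁ y₂ y₃ => Pool.Agent.K4H93.LRP.final3 (fun y i => B i y) f hcl (hf true)
        (hf false) hnp ha y₁ y₂ y₃
    · left
      exact p1 X Y F s B hF k _ hcl fun _ => ⟨hf, ha⟩
  · obtain ⟨c, A, hrep⟩ := hF
    obtain ⟨d', hd, hb⟩ := Pool.Agent.K4H93.LRP.final2 F (fun y i => B i y) c A hrep φ hcl
      (fun i => (hφ i).1 true) (fun i => (hφ i).1 false) (fun i => (hφ i).2) d
      (fun G' ψ' c' A' h1 h2 => haff G' (fun i y => ψ' y i) ⟨c', A', h1⟩ h2)
    refine ⟨d', hd, ?_⟩
    rw [Fintype.card_fin, h107] at hb
    exact hb

end Pool.Agent.Results.MP_e5d384_lc.PolymorphismClosed
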