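import Pool.Agent.K4H92.ANDF.Fact

/-!
# A structural form of the log-rank conjecture: factorizations stable under intersections

A Boolean matrix of real rank `r` has a factorization `F(x, y) = ∑_z u_z(x) h_z(y)` with `r` Boolean
functions `u_z` (`r` columns of `F` which form a basis of the column space) and real functions `h_z`.
Call a factorization with Boolean `u_z` *stable* with values in `V` if for every nonempty set `I` of
rows and every column `y` the sum of the `h_z(y)` over all `z` with `u_z = 1` on the whole of `I`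
lies in `V`. In other words: the rows `x` are replaced by the sets `{z : u_z(x) = 1}`, and the
functions `F(·, y)` have to extend to all intersections of such sets with values in `V`.

The log-rank conjecture is equivalent to the statement that all Boolean matrices of rank `r` have
stable factorizations with quasipolynomially many terms and with values in `{0, 1}`; or only with
integral values of absolute value at most `polylog r`. The main inequality is unconditional: a
stable factorization with `s` terms and integral values of absolute value at most `m` gives a protocol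
with `3000 m² (log₂ s + 1)^7` bits.

Remarks. (a) An unambiguous cover (Yannakakis) is a stable factorization with values in `{0, 1}` in
which the `h_z` are Boolean as well; here they may be arbitrary real functions. (b) For
`F(x, y) = f(x ∧ y)` the expansion of `f` into monomials is a stable factorization with values in
`{0, 1}` and with `r` terms. (c) For `F(x, y) = f(x + y)` the Fourier expansion of `f`, written with
the indicator functions of the hyperplanes, has `2 r` terms and is stable with values in the interval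
`[0, 1]` (they are averages of `f` over affine subspaces). So it is the integrality for which one has to
pay.

Proof of the main inequality: let `K = 8 m (log₂ s + 1)² + 1`. If there is no union `T` of `K` of the
sets `{x : u_z(x) = 0}` modulo which only `(1 - 1 / (8 K)) s` of these sets are different, then a random
`K`-tuple of them gives `K` disjoint blocks on which a function with integral values in `[-m, m]` has
nonzero derivatives, and Markov's inequality and a random restriction give `s ≥ 2^(√(K / (8 m)))`, a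
contradiction. So one can pass to large rectangles with fewer and fewer terms, and the theorem of
Nisan and Wigderson gives the protocol.
-/

set_option autoImplicit false

namespace Pool.Agent.Results.MP_e5d384_lc.StableFactorizations

open Finset

/-- Q1, as in the frozen statement S15531. -/
def LogRank : Prop :=
    ∃ C k : ℕ, ∀ n : ℕ, ∀ F : (Fin n → ZMod 2) → (Fin n → ZMod 2) → Bool,
      ∃ c : ℕ, ∃ owner : List Bool → Bool,
        ∃ a : List Bool → (Fin n → ZMod 2) → Bool,
        ∃ b : List Bool → (Fin n → ZMod 2) → Bool,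
        ∃ out : List Bool → Bool,
          (∀ x y : Fin n → ZMod 2,
            out (Nat.iterate
              (fun t : List Bool => t ++ [if owner t then a t x else b t y]) c []) = F x y) ∧
          (c : ℝ) ≤ (C : ℝ) * (Real.logb 2
              ((Matrix.of (fun x y : Fin n → ZMod 2 => if F x y then (1 : ℝ) else 0)).rank : ℝ)) ^ k
            + (C : ℝ)

/-- The binary logarithm of the real rank of the communication matrix of `F`. -/
noncomputable def logRank {X Y : Type} [Fintype X] [Fintype Y] (F : X → Y → Bool) : ℝ :=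
  Real.logb 2 ((Matrix.of fun (x : X) (y : Y) => if F x y then (1 : ℝ) else 0).rank : ℝ)

/-- `F` has a deterministic two-party protocol in which `c` bits are exchanged. (Protocols exactly as
in the frozen statement S15531: `t` is the transcript so far, `owner t` says who speaks, and the answer
is a function of the transcript.) -/
def HasProtocol {X Y : Type} (F : X → Y → Bool) (c : ℕ) : Prop :=
  ∃ (owner : List Bool → Bool) (a : List Bool → X → Bool) (b : List Bool → Y → Bool)
    (out : List Bool → Bool), ∀ x y,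
      out (Nat.iterate (fun t : List Bool => t ++ [if owner t then a t x else b t y]) c []) = F x y

/-- A factorization `F(x, y) = ∑_z u_z(x) h_z(y)` with `s` terms, Boolean functions `u_z` and real
functions `h_z`, such that for all nonempty sets `I` of rows and all columns `y` the sum of the
`h_z(y)` over all `z` with `u_z = 1` on `I` lies in `V`. -/
def StableFactorization {X Y : Type} (F : X → Y → Bool) (V : Set ℝ) (s : ℕ) : Prop :=
  ∃ (u : Fin s → X → Bool) (h : Fin s → Y → ℝ),
    (∀ x y, ∑ z with u z x = true, h z y = if F x y then 1 else 0) ∧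
    ∀ I : Finset X, I.Nonempty → ∀ y, ∑ z with ∀ x ∈ I, u z x = true, h z y ∈ V

/-- The integers of absolute value at most `m`. -/
def Integers (m : ℕ) : Set ℝ := {v | ∃ n : ℤ, |n| ≤ m ∧ v = n}

/-- (1) Unconditionally: a stable factorization with `s` terms and with integral values of absolute
value at most `m` gives a protocol with at most `3000 m² (log₂ s + 1)^7` bits. (2) A protocol with `c`
bits gives a stable factorization with `2^c` terms and with values in `{0, 1}`. (3) The log-rank
conjecture holds if and only if all Boolean matrices have stable factorizations with values in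
`{0, 1}` in which the number of terms is quasipolynomial in the rank. (4) Here it is enough to have
integral values of absolute value at most polylogarithmic in the rank. -/
theorem result :
    (∀ (X Y : Type) [Fintype X] [Fintype Y] (F : X → Y → Bool) (m s : ℕ), 1 ≤ m →
      StableFactorization F (Integers m) s →
        ∃ c, HasProtocol F c ∧ (c : ℝ) ≤ 3000 * (m : ℝ) ^ 2 * (Real.logb 2 (s : ℝ) + 1) ^ 7) ∧
    (∀ (X Y : Type) (F : X → Y → Bool) (c : ℕ), HasProtocol F c →
      StableFactorization F {0, 1} (2 ^ c)) ∧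
    (LogRank ↔ ∃ C k : ℕ, ∀ (n : ℕ) (F : (Fin n → ZMod 2) → (Fin n → ZMod 2) → Bool), ∃ s : ℕ,
      StableFactorization F {0, 1} s ∧ Real.logb 2 (s : ℝ) ≤ C * logRank F ^ k + C) ∧
    (LogRank ↔ ∃ C k : ℕ, ∀ (n : ℕ) (F : (Fin n → ZMod 2) → (Fin n → ZMod 2) → Bool), ∃ m s : ℕ,
      StableFactorization F (Integers m) s ∧ (m : ℝ) ≤ C * logRank F ^ k + C ∧
        Real.logb 2 (s : ℝ) ≤ C * logRank F ^ k + C) := by
  have p1 : ∀ (X Y : Type) [Fintype X] [Fintype Y] (F : X → Y → Bool) (m s : ℕ), 1 ≤ m →
      StableFactorization F (Integers m) s →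
        ∃ c, HasProtocol F c ∧
          (c : ℝ) ≤ 3000 * (m : ℝ) ^ 2 * (Real.logb 2 (s : ℝ) + 1) ^ 7 := by
    intro X Y _ _ F m s hm h
    exact Pool.Agent.K4H92.ANDF.proto_stable F m s hm h
  have p2 : ∀ (X Y : Type) (F : X → Y → Bool) (c : ℕ), HasProtocol F c →
      StableFactorization F {0, 1} (2 ^ c) := by
    intro X Y F c h
    exact Pool.Agent.K4H92.ANDF.stable_of_proto F c h
  have mono : ∀ (X Y : Type) (F : X → Y → Bool) (V W : Set ℝ) (s : ℕ), V ⊆ W →
      StableFactorization F V s → StableFactorization F W s := by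
    rintro X Y F V W s hVW ⟨u, h, h1, h2⟩
    exact ⟨u, h, h1, fun I hI y => hVW (h2 I hI y)⟩
  have h01 : ({0, 1} : Set ℝ) ⊆ Integers 1 := by
    rintro v (rfl | rfl)
    · exact ⟨0, by simp, by simp⟩
    · exact ⟨1, by simp, by simp⟩
  have hint : ∀ m : ℕ, Integers m ⊆ Integers (m + 1) := by
    rintro m v ⟨n, hn, rfl⟩
    exact ⟨n, hn.trans (by push_cast; linarith), rfl⟩
  have hL0 : ∀ (n : ℕ) (F : (Fin n → ZMod 2) → (Fin n → ZMod 2) → Bool), 0 ≤ logRank F :=
    fun n F => Pool.Agent.H630R2.LR.logb_nonneg _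
  have back : (∃ C k : ℕ, ∀ (n : ℕ) (F : (Fin n → ZMod 2) → (Fin n → ZMod 2) → Bool),
      ∃ m s : ℕ, StableFactorization F (Integers m) s ∧ (m : ℝ) ≤ C * logRank F ^ k + C ∧
        Real.logb 2 (s : ℝ) ≤ C * logRank F ^ k + C) → LogRank := by
    rintro ⟨C, k, hC⟩
    refine ⟨3000 * 256 * (C + 1) ^ 9, 9 * k, fun n F => ?_⟩
    obtain ⟨m, s, hst, hm, hs⟩ := hC n F
    obtain ⟨c, ⟨owner, a, b, out, hout⟩, hc⟩ :=
      p1 _ _ F (m + 1) s (by omega) (mono _ _ _ _ _ _ (hint m) hst)
    refine ⟨c, owner, a, b, out, hout, hc.trans ?_⟩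
    have hL := hL0 n F
    change _ ≤ _ * logRank F ^ (9 * k) + _
    set L := logRank F
    have hLk : 0 ≤ L ^ k := pow_nonneg hL k
    have hs0 : 0 ≤ Real.logb 2 (s : ℝ) := Pool.Agent.H630R2.LR.logb_nonneg s
    have hC0 : (0 : ℝ) ≤ C := Nat.cast_nonneg C
    have e1 : (m : ℝ) + 1 ≤ (C + 1) * (L ^ k + 1) := by nlinarith
    have e2 : Real.logb 2 (s : ℝ) + 1 ≤ (C + 1) * (L ^ k + 1) := by nlinarith
    have e0 : 0 ≤ ((C : ℝ) + 1) * (L ^ k + 1) := by positivity
    have e3 : ((m : ℝ) + 1) ^ 2 * (Real.logb 2 (s : ℝ) + 1) ^ 7 ≤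
        (((C : ℝ) + 1) * (L ^ k + 1)) ^ 9 := by
      calc ((m : ℝ) + 1) ^ 2 * (Real.logb 2 (s : ℝ) + 1) ^ 7
          ≤ (((C : ℝ) + 1) * (L ^ k + 1)) ^ 2 * (((C : ℝ) + 1) * (L ^ k + 1)) ^ 7 := by
            apply mul_le_mul
            · exact pow_le_pow_left₀ (by positivity) e1 2
            · exact pow_le_pow_left₀ (by linarith) e2 7
            · exact pow_nonneg (by linarith) 7
            · exact pow_nonneg e0 2
        _ = (((C : ℝ) + 1) * (L ^ k + 1)) ^ 9 := by ring
    have e4 : (L ^ k + 1) ^ 9 ≤ 2 ^ (9 - 1) * ((L ^ k) ^ 9 + 1 ^ 9) :=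
      add_pow_le hLk zero_le_one 9
    calc 3000 * (((m + 1 : ℕ) : ℝ)) ^ 2 * (Real.logb 2 (s : ℝ) + 1) ^ 7
        = 3000 * (((m : ℝ) + 1) ^ 2 * (Real.logb 2 (s : ℝ) + 1) ^ 7) := by push_cast; ring
      _ ≤ 3000 * (((C : ℝ) + 1) * (L ^ k + 1)) ^ 9 := mul_le_mul_of_nonneg_left e3 (by norm_num)
      _ = 3000 * ((C : ℝ) + 1) ^ 9 * (L ^ k + 1) ^ 9 := by ring
      _ ≤ 3000 * ((C : ℝ) + 1) ^ 9 * (2 ^ (9 - 1) * ((L ^ k) ^ 9 + 1 ^ 9)) :=
          mul_le_mul_of_nonneg_left e4 (by positivity)
      _ = ((3000 * 256 * (C + 1) ^ 9 : ℕ) : ℝ) * L ^ (9 * k) +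
          ((3000 * 256 * (C + 1) ^ 9 : ℕ) : ℝ) := by
        have h9 : L ^ (9 * k) = (L ^ k) ^ 9 := by rw [← pow_mul, Nat.mul_comm]
        rw [h9]
        push_cast
        ring
  have forth : LogRank → ∃ C k : ℕ, ∀ (n : ℕ) (F : (Fin n → ZMod 2) → (Fin n → ZMod 2) → Bool),
      ∃ s : ℕ, StableFactorization F {0, 1} s ∧ Real.logb 2 (s : ℝ) ≤ C * logRank F ^ k + C := by
    rintro ⟨C, k, hC⟩
    refine ⟨C, k, fun n F => ?_⟩
    obtain ⟨c, owner, a, b, out, hout, hc⟩ := hC n F
    refine ⟨2 ^ c, p2 _ _ F c ⟨owner, a, b, out, hout⟩, ?_⟩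
    have h1 : Real.logb 2 (((2 : ℕ) ^ c : ℕ) : ℝ) = c := by
      push_cast
      rw [Real.logb_pow, Real.logb_self_eq_one (by norm_num), mul_one]
    rw [h1]
    exact hc
  have mid : (∃ C k : ℕ, ∀ (n : ℕ) (F : (Fin n → ZMod 2) → (Fin n → ZMod 2) → Bool),
      ∃ s : ℕ, StableFactorization F {0, 1} s ∧ Real.logb 2 (s : ℝ) ≤ C * logRank F ^ k + C) →
      ∃ C k : ℕ, ∀ (n : ℕ) (F : (Fin n → ZMod 2) → (Fin n → ZMod 2) → Bool),
      ∃ m s : ℕ, StableFactorization F (Integers m) s ∧ (m : ℝ) ≤ C * logRank F ^ k + C ∧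
        Real.logb 2 (s : ℝ) ≤ C * logRank F ^ k + C := by
    rintro ⟨C, k, hC⟩
    refine ⟨C + 1, k, fun n F => ?_⟩
    obtain ⟨s, hst, hs⟩ := hC n F
    have hLk : 0 ≤ logRank F ^ k := pow_nonneg (hL0 n F) k
    refine ⟨1, s, mono _ _ _ _ _ _ h01 hst, ?_, ?_⟩
    · push_cast
      nlinarith [Nat.cast_nonneg (α := ℝ) C]
    · push_cast
      nlinarith
  exact ⟨p1, p2, ⟨forth, fun h => back (mid h)⟩, ⟨fun h => mid (forth h), back⟩⟩

end Pool.Agent.Results.MP_e5d384_lc.StableFactorizations
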